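import Mathlib
import Pool.Agent.LeoK.StrStmts
import Pool.Agent.Helper83_Leo3.Gup
import Pool.Agent.Helper11_Leo3.Loc

/-!
# Squad leok, module TWI, part A: group theory, Hilbert 90, the local part
-/

set_option autoImplicit false

open NumberField IsDedekindDomain WithZero Module
open Pool.Agent.Helper85_Leo Pool.Agent.Leo3

namespace Pool.Agent.LeoK.H79

/-! ### A `3`-group acting on an elementary abelian `3`-group -/

section group

variable {G Q : Type} [Group G] [Finite G] [CommGroup Q] [MulDistribMulAction G Q]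

theorem exists_fixed (hG : IsPGroup 3 G) (hQ : ∀ x : Q, x ^ 3 = 1) (A : Subgroup Q)
    (hA : ∀ (g : G) (x : Q), x ∈ A → g • x ∈ A) (z : Q) (hz : z ∈ A) (hz1 : z ≠ 1) :
    ∃ e : Q, e ∈ A ∧ e ≠ 1 ∧ ∀ g : G, g • e = e := by
  have hp : Fact (Nat.Prime 3) := ⟨Nat.prime_three⟩
  let B : Subgroup Q := Subgroup.closure (Set.range (fun g : G => g • z))
  have hBA : B ≤ A := by
    rw [Subgroup.closure_le]
    rintro _ ⟨g, rfl⟩
    exact hA g z hz
  have hzB : z ∈ B := Subgroup.subset_closure ⟨1, one_smul G z⟩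
  have hB : ∀ (g : G) (x : Q), x ∈ B → g • x ∈ B := by
    intro g x hx
    refine Subgroup.closure_induction (p := fun y _ => g • y ∈ B) ?_ ?_ ?_ ?_ hx
    · rintro _ ⟨h, rfl⟩
      have h1 : g • (h • z) = (g * h) • z := (mul_smul g h z).symm
      show g • (h • z) ∈ B
      rw [h1]
      exact Subgroup.subset_closure ⟨g * h, rfl⟩
    · rw [smul_one]
      exact B.one_mem
    · intro a b _ _ ha hb
      rw [smul_mul']
      exact B.mul_mem ha hb
    · intro a _ ha
      rw [smul_inv']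
      exact B.inv_mem ha
  have hfg : Group.FG B := by
    rw [Group.fg_iff_subgroup_fg]
    exact (Subgroup.fg_iff B).2 ⟨_, rfl, Set.finite_range _⟩
  have htor : IsMulTorsion B := by
    intro x
    rw [isOfFinOrder_iff_pow_eq_one]
    refine ⟨3, by norm_num, ?_⟩
    apply Subtype.ext
    exact hQ x
  have hfin : Finite B := CommGroup.finite_of_fg_isMulTorsion B htor
  have hPB : IsPGroup 3 B := by
    intro x
    refine ⟨1, ?_⟩
    apply Subtype.ext
    rw [pow_one]
    exact hQ x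
  let act : MulAction G B :=
    { smul := fun g x => ⟨g • (x : Q), hB g x x.2⟩
      one_smul := fun x => Subtype.ext (one_smul G (x : Q))
      mul_smul := fun g h x => Subtype.ext (mul_smul g h (x : Q)) }
  have hcard : 3 ∣ Nat.card B := by
    obtain ⟨n, hn⟩ := IsPGroup.iff_card.1 hPB
    rw [hn]
    apply dvd_pow_self
    rintro rfl
    rw [pow_zero, Nat.card_eq_one_iff_unique] at hn
    have h1 : (⟨z, hzB⟩ : B) = 1 := @Subsingleton.elim _ hn.1 _ _
    exact hz1 (congrArg Subtype.val h1)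
  have h1fix : (1 : B) ∈ MulAction.fixedPoints G B := by
    intro g
    exact Subtype.ext (smul_one g)
  obtain ⟨b, hb, hb1⟩ := hG.exists_fixed_point_of_prime_dvd_card_of_fixed_point B hcard h1fix
  refine ⟨b, hBA b.2, ?_, ?_⟩
  · intro h
    exact hb1 (Subtype.ext h.symm)
  · intro g
    exact congrArg Subtype.val (hb g)

end group

/-! ### Fixed classes of cubes -/

section cubes

variable {K L : Type} [Field K] [Field L] [Algebra K L] [FiniteDimensional K L]

/-- A `3`-group of automorphisms acting on the elements modulo cubes has a fixed class. -/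
theorem exists_class (hG : IsPGroup 3 (L ≃ₐ[K] L)) (A : L → Prop)
    (hmul : ∀ x y, A x → A y → A (x * y)) (hinv : ∀ x, A x → A x⁻¹)
    (hcub : ∀ x, x ≠ 0 → A (x ^ 3)) (hσ : ∀ (σ : L ≃ₐ[K] L) (x : L), A x → A (σ x))
    (z : L) (hz0 : z ≠ 0) (hz : A z) (hnc : ∀ t : L, t ^ 3 ≠ z) :
    ∃ e : L, e ≠ 0 ∧ A e ∧ (∀ t : L, t ^ 3 ≠ e) ∧
      ∀ σ : L ≃ₐ[K] L, ∃ c : L, c ≠ 0 ∧ σ e = e * c ^ 3 := by
  let C : Subgroup Lˣ := (powMonoidHom 3 : Lˣ →* Lˣ).range
  have hC : ∀ x : Lˣ, x ∈ C ↔ ∃ y : Lˣ, y ^ 3 = x := fun x => Iff.rfl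
  let act : (L ≃ₐ[K] L) → (Lˣ ⧸ C →* Lˣ ⧸ C) := fun σ =>
    QuotientGroup.map C C (Units.map (σ : L →* L)) (by
      rintro x ⟨y, rfl⟩
      refine ⟨Units.map (σ : L →* L) y, ?_⟩
      show (Units.map (σ : L →* L) y) ^ 3 = Units.map (σ : L →* L) (y ^ 3)
      rw [map_pow])
  have hact : ∀ (σ : L ≃ₐ[K] L) (x : Lˣ), act σ (QuotientGroup.mk x) =
      QuotientGroup.mk (Units.map (σ : L →* L) x) := fun σ x => rfl
  let inst : MulDistribMulAction (L ≃ₐ[K] L) (Lˣ ⧸ C) :=
    { smul := fun σ x => act σ x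
      one_smul := by
        intro x
        obtain ⟨x, rfl⟩ := QuotientGroup.mk_surjective x
        show act 1 (QuotientGroup.mk x) = _
        rw [hact]
        congr 1
      mul_smul := by
        intro σ τ x
        obtain ⟨x, rfl⟩ := QuotientGroup.mk_surjective x
        show act (σ * τ) (QuotientGroup.mk x) = act σ (act τ (QuotientGroup.mk x))
        rw [hact, hact, hact]
        congr 1
      smul_one := fun σ => map_one (act σ)
      smul_mul := fun σ x y => map_mul (act σ) x y }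
  have hsm : ∀ (σ : L ≃ₐ[K] L) (x : Lˣ), σ • (QuotientGroup.mk x : Lˣ ⧸ C) =
      QuotientGroup.mk (Units.map (σ : L →* L) x) := fun σ x => rfl
  have hA1 : A 1 := by
    have := hcub 1 one_ne_zero
    rwa [one_pow] at this
  let A0 : Subgroup Lˣ :=
    { carrier := {x | A (x : L)}
      mul_mem' := by
        intro a b ha hb
        show A ((a * b : Lˣ) : L)
        rw [Units.val_mul]
        exact hmul _ _ ha hb
      one_mem' := hA1
      inv_mem' := by
        intro a ha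
        show A ((a⁻¹ : Lˣ) : L)
        rw [Units.val_inv_eq_inv_val]
        exact hinv _ ha }
  have hQ : ∀ x : Lˣ ⧸ C, x ^ 3 = 1 := by
    intro x
    obtain ⟨x, rfl⟩ := QuotientGroup.mk_surjective x
    rw [← QuotientGroup.mk_pow, QuotientGroup.eq_one_iff]
    exact ⟨x, rfl⟩
  have : Finite (L ≃ₐ[K] L) := inferInstance
  obtain ⟨e, heA, he1, hef⟩ := exists_fixed hG hQ (A0.map (QuotientGroup.mk' C))
    (by
      rintro σ _ ⟨x, hx, rfl⟩
      refine ⟨Units.map (σ : L →* L) x, hσ σ _ hx, ?_⟩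
      rfl)
    (QuotientGroup.mk' C (Units.mk0 z hz0)) ⟨Units.mk0 z hz0, hz, rfl⟩
    (by
      intro h
      rw [QuotientGroup.mk'_apply, QuotientGroup.eq_one_iff] at h
      obtain ⟨y, hy⟩ := h
      apply hnc (y : L)
      have h2 := congrArg (Units.val) hy
      simpa using h2)
  obtain ⟨x, hx, rfl⟩ := heA
  refine ⟨(x : L), x.ne_zero, hx, ?_, ?_⟩
  · intro t ht
    apply he1
    have ht0 : t ≠ 0 := by
      rintro rfl
      apply x.ne_zero
      rw [← ht]
      norm_num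
    rw [QuotientGroup.mk'_apply, QuotientGroup.eq_one_iff]
    refine ⟨Units.mk0 t ht0, ?_⟩
    apply Units.ext
    simpa using ht
  · intro σ
    have h1 := hef σ
    rw [QuotientGroup.mk'_apply, hsm, QuotientGroup.eq] at h1
    obtain ⟨y, hy⟩ := h1
    refine ⟨((y⁻¹ : Lˣ) : L), (y⁻¹).ne_zero, ?_⟩
    have h2 := congrArg (Units.val) hy
    have hσx : σ (x : L) ≠ 0 := by
      intro h
      exact x.ne_zero (by simp at h)
    have h3 : (y : L) ^ 3 = (σ (x : L))⁻¹ * x := by
      have h4 : ((Units.map (σ : L →* L) x : Lˣ) : L) = σ (x : L) := rfl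
      have h5 : ((powMonoidHom 3 y : Lˣ) : L) = (y : L) ^ 3 := by simp
      rw [h5, Units.val_mul, Units.val_inv_eq_inv_val, h4] at h2
      exact h2
    have hy0 : (y : L) ≠ 0 := y.ne_zero
    rw [Units.val_inv_eq_inv_val]
    field_simp
    rw [h3]
    field_simp

/-- Hilbert 90 for the cocycle of cube roots: a fixed class contains an element below. -/
theorem descend [IsGalois K L] (hmu : ∀ x : L, x ^ 3 = 1 → x = 1) (e : L) (he0 : e ≠ 0)
    (h : ∀ σ : L ≃ₐ[K] L, ∃ c : L, c ≠ 0 ∧ σ e = e * c ^ 3) :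
    ∃ (z : K) (y : L), z ≠ 0 ∧ y ≠ 0 ∧ algebraMap K L z = e * y ^ 3 := by
  choose c hc0 hc using h
  have hinj : ∀ a b : L, b ≠ 0 → a ^ 3 = b ^ 3 → a = b := by
    intro a b hb hab
    have h1 : (a / b) ^ 3 = 1 := by
      rw [div_pow, hab, div_self (pow_ne_zero 3 hb)]
    have h2 := hmu _ h1
    rwa [div_eq_one_iff_eq hb] at h2
  let f : (L ≃ₐ[K] L) → Lˣ := fun σ => Units.mk0 (c σ) (hc0 σ)
  have hco : groupCohomology.IsMulCocycle₁ f := by
    intro σ τ
    apply Units.ext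
    show c (σ * τ) = σ (c τ) * c σ
    have hne : σ (c τ) * c σ ≠ 0 := by
      apply mul_ne_zero _ (hc0 σ)
      intro h
      exact hc0 τ (by simpa using h)
    apply hinj _ _ hne
    have h1 : (σ * τ) e = e * (σ (c τ) * c σ) ^ 3 := by
      show σ (τ e) = _
      rw [hc τ, map_mul, map_pow, hc σ]
      ring
    rw [hc (σ * τ)] at h1
    exact mul_left_cancel₀ he0 h1
  obtain ⟨y, hy⟩ := groupCohomology.isMulCoboundary₁_of_isMulCocycle₁_of_aut_to_units f hco
  have hy' : ∀ σ : L ≃ₐ[K] L, σ (y : L) = c σ * y := by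
    intro σ
    have h1 := congrArg Units.val (hy σ)
    have h2 : σ (y : L) / y = c σ := by
      rw [Units.val_div_eq_div_val] at h1
      exact h1
    rw [← h2]
    exact (div_mul_cancel₀ _ y.ne_zero).symm
  have hfix : ∀ σ : L ≃ₐ[K] L, σ (e * ((y : L)⁻¹) ^ 3) = e * ((y : L)⁻¹) ^ 3 := by
    intro σ
    rw [map_mul, map_pow, map_inv₀, hy' σ, hc σ]
    have h1 := hc0 σ
    have h2 := y.ne_zero
    field_simp
  have hbot := (IsGalois.mem_bot_iff_fixed (F := K) (E := L) _).mpr hfix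
  obtain ⟨z, hz⟩ := IntermediateField.mem_bot.mp hbot
  refine ⟨z, (y : L)⁻¹, ?_, inv_ne_zero y.ne_zero, hz⟩
  rintro rfl
  rw [map_zero] at hz
  exact mul_ne_zero he0 (pow_ne_zero 3 (inv_ne_zero y.ne_zero)) hz.symm

end cubes

/-! ### The local part -/

section loc

variable {K L : Type} [Field K] [Field L] [Algebra K L] [FiniteDimensional K L] [IsGalois K L]

theorem pow_fix {j : ℕ} (h3 : finrank K L = 3 ^ j) (φ : L →+* Om) (ρ : Om ≃ₐ[ℚ_[3]] Om)
    (hρ : FixF (φ.comp (algebraMap K L)) ρ) : FixF φ (ρ ^ (3 ^ j)) := by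
  obtain ⟨g, hg⟩ := H11.exists_aut φ ρ hρ
  have h1 : ∀ (n : ℕ) (x : L), (ρ ^ n) (φ x) = φ ((g ^ n) x) := by
    intro n
    induction n with
    | zero => intro x; rfl
    | succ n ih =>
      intro x
      rw [pow_succ, pow_succ]
      show (ρ ^ n) (ρ (φ x)) = φ ((g ^ n) (g x))
      rw [hg, ih]
  intro x
  rw [h1]
  have hc : Nat.card (L ≃ₐ[K] L) = 3 ^ j := by rw [IsGalois.card_aut_eq_finrank, h3]
  have e : g ^ (3 ^ j) = 1 := by
    rw [← hc]
    exact pow_card_eq_one'
  rw [e]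
  rfl

theorem noMu_up {j : ℕ} (h3 : finrank K L = 3 ^ j) (hK : NoMu K) : NoMu L := by
  intro φ t ht ht3
  by_contra hne
  apply hne
  refine hK (φ.comp (algebraMap K L)) t ?_ ht3
  intro ρ hρ
  have hs : 1 + t + t ^ 2 = 0 := by
    have : (t - 1) * (1 + t + t ^ 2) = 0 := by
      linear_combination ht3
    exact (mul_eq_zero.1 this).resolve_left (sub_ne_zero.2 hne)
  have hu3 : (ρ t) ^ 3 = 1 := by rw [← map_pow, ht3, map_one]
  have hu1 : ρ t ≠ 1 := by
    intro h
    exact hne (ρ.injective (by rw [h, map_one]))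
  have hu : (ρ t - t) * (ρ t - t ^ 2) = 0 := by
    have : (ρ t - 1) * ((ρ t - t) * (ρ t - t ^ 2)) = 0 := by
      linear_combination hu3 - ht3 - ((ρ t) ^ 2 - (ρ t) * t) * hs
    exact (mul_eq_zero.1 this).resolve_left (sub_ne_zero.2 hu1)
  rcases mul_eq_zero.1 hu with h | h
  · exact sub_eq_zero.1 h
  · have h2 : ρ t = t ^ 2 := sub_eq_zero.1 h
    have h4 : ρ (ρ t) = t := by
      rw [h2, map_pow, h2]
      linear_combination t * ht3
    have h5 : ρ ^ 2 ∈ MulAction.stabilizer (Om ≃ₐ[ℚ_[3]] Om) t := by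
      rw [MulAction.mem_stabilizer_iff]
      show (ρ ^ 2) t = t
      rw [pow_two]
      exact h4
    have h6 : ρ ^ (3 ^ j) ∈ MulAction.stabilizer (Om ≃ₐ[ℚ_[3]] Om) t := by
      rw [MulAction.mem_stabilizer_iff]
      exact ht _ (pow_fix h3 φ ρ hρ)
    have hodd : Odd (3 ^ j) := Odd.pow (by decide)
    obtain ⟨m, hm⟩ := hodd
    have h7 : ρ ∈ MulAction.stabilizer (Om ≃ₐ[ℚ_[3]] Om) t := by
      have h8 : ρ = ((ρ ^ 2) ^ m)⁻¹ * ρ ^ (3 ^ j) := by
        rw [hm, pow_add, pow_mul, pow_one]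
        group
      rw [h8]
      exact Subgroup.mul_mem _ (Subgroup.inv_mem _ (Subgroup.pow_mem _ h5 m)) h6
    exact h7

/-- local elements whose cube lies below lie below. -/
theorem inLoc_desc (hL : NoMu L) (φ : L →+* Om) (t : Om) (ht : InLoc φ t)
    (hcube : InLoc (φ.comp (algebraMap K L)) (t ^ 3)) : InLoc (φ.comp (algebraMap K L)) t := by
  intro ρ hρ
  by_cases h0 : t = 0
  · rw [h0, map_zero]
  have h1 : InLoc φ (ρ t / t) := by
    intro σ hσ
    rw [map_div₀, H11.inLoc_map φ ρ hρ t ht σ hσ, ht σ hσ]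
  have h2 : (ρ t / t) ^ 3 = 1 := by
    rw [div_pow, ← map_pow, hcube ρ hρ, div_self (pow_ne_zero 3 h0)]
  have h4 := hL φ _ h1 h2
  rwa [div_eq_one_iff_eq h0] at h4

end loc

end Pool.Agent.LeoK.H79
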