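import Mathlib
import Pool.Agent.LeoK.StrStmts
import Pool.Agent.Helper83_Leo3.Gup
import Pool.Agent.Helper60_Leo3.Tools

/-!
# Squad leok, module TWI, part B: valuations, ramification, norms of quadratic extensions
-/

set_option autoImplicit false

open NumberField IsDedekindDomain WithZero Module
open Pool.Agent.Helper85_Leo Pool.Agent.Leo3

namespace Pool.Agent.LeoK.H79

/-! ### `ValCube3` -/

section val

variable {L : Type} [Field L] [NumberField L]

theorem valCube3_map {z : L} (hz : ValCube3 z) (σ : L ≃+* L) : ValCube3 (σ z) := by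
  intro q hq
  rw [H83.val_equiv σ q z]
  apply hz
  intro h
  apply hq
  have h' : (RingOfIntegers.mapRingEquiv σ : 𝓞 L →+* 𝓞 L) 3 ∈ q.asIdeal := h
  have e6 : (RingOfIntegers.mapRingEquiv σ : 𝓞 L →+* 𝓞 L) 3 = 3 := map_ofNat _ 3
  rw [e6] at h'
  exact h'

theorem valCube3_mul {z w : L} (hz : ValCube3 z) (hw : ValCube3 w) : ValCube3 (z * w) := by
  intro q hq
  obtain ⟨x, hx⟩ := hz q hq
  obtain ⟨y, hy⟩ := hw q hq
  exact ⟨x * y, by rw [map_mul, hx, hy, mul_pow]⟩

theorem valCube3_inv {z : L} (hz : ValCube3 z) : ValCube3 z⁻¹ := by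
  intro q hq
  obtain ⟨x, hx⟩ := hz q hq
  exact ⟨x⁻¹, by rw [map_inv₀, hx, inv_pow]⟩

theorem valCube3_cube (s : L) : ValCube3 (s ^ 3) := by
  intro q hq
  exact ⟨q.valuation L s, by rw [map_pow]⟩

/-- `y ^ e` a cube with `e` prime to `3` gives `y` a cube. -/
theorem cube_of_pow {y x : ℤᵐ⁰} {e : ℕ} (he : ¬ 3 ∣ e) (h : y ^ e = x ^ 3) :
    ∃ w : ℤᵐ⁰, y = w ^ 3 := by
  by_cases hy : y = 0
  · exact ⟨0, by rw [hy]; simp⟩
  have hcop : e % 3 = 1 ∨ e % 3 = 2 := by omega
  rcases hcop with h1 | h2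
  · -- e = 3 m + 1
    obtain ⟨m, hm⟩ : ∃ m, e = 3 * m + 1 := ⟨e / 3, by omega⟩
    refine ⟨x / y ^ m, ?_⟩
    rw [div_pow, ← h, hm, ← pow_mul, pow_succ, mul_comm m 3]
    field_simp
  · obtain ⟨m, hm⟩ : ∃ m, e = 3 * m + 2 := ⟨e / 3, by omega⟩
    refine ⟨y ^ (m + 1) / x, ?_⟩
    rw [div_pow, ← h, hm, ← pow_mul]
    have : y ^ ((m + 1) * 3) = y * y ^ (3 * m + 2) := by
      rw [← pow_succ']
      congr 1
      ring
    rw [this]
    field_simp

end val

/-! ### Ramification -/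

section ram

variable {K L : Type} [Field K] [NumberField K] [Field L] [NumberField L] [Algebra K L]

theorem exists_above (q : HeightOneSpectrum (𝓞 K)) (hq : (3 : 𝓞 K) ∉ q.asIdeal) :
    ∃ w : HeightOneSpectrum (𝓞 L), w.asIdeal.LiesOver q.asIdeal ∧ (3 : 𝓞 L) ∉ w.asIdeal := by
  have hqm : q.asIdeal.IsMaximal := q.isPrime.isMaximal q.ne_bot
  obtain ⟨P, hPm, hPo⟩ := Ideal.exists_maximal_ideal_liesOver_of_isIntegral q.asIdeal (S := 𝓞 L)
  have hPb : P ≠ ⊥ := Ideal.ne_bot_of_liesOver_of_ne_bot q.ne_bot P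
  refine ⟨⟨P, hPm.isPrime, hPb⟩, hPo, ?_⟩
  intro h6
  apply hq
  rw [hPo.over, Ideal.mem_under, map_ofNat]
  exact h6

theorem val_pow (q : HeightOneSpectrum (𝓞 K)) (w : HeightOneSpectrum (𝓞 L))
    (h : w.asIdeal.LiesOver q.asIdeal) (x : K) :
    q.valuation K x ^ (w.asIdeal.ramificationIdx (𝓞 K)) = w.valuation L (algebraMap K L x) := by
  have hv := HeightOneSpectrum.valuation_liesOver (K := K) L q w x
  have h1 : q.asIdeal.ramificationIdx' w.asIdeal = w.asIdeal.ramificationIdx (𝓞 K) :=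
    Ideal.ramificationIdx'_eq_ramificationIdx q.asIdeal w.asIdeal q.ne_bot
  rw [← h1]
  exact hv

theorem ram_le (h2 : finrank K L = 2) (w : HeightOneSpectrum (𝓞 L)) :
    ¬ 3 ∣ w.asIdeal.ramificationIdx (𝓞 K) := by
  have hwp := w.isPrime
  have hq0 : w.asIdeal.under (𝓞 K) ≠ ⊥ := by
    intro h
    exact w.ne_bot (Ideal.eq_bot_of_comap_eq_bot h)
  have hqm : (w.asIdeal.under (𝓞 K)).IsMaximal :=
    (inferInstance : (w.asIdeal.under (𝓞 K)).IsPrime).isMaximal hq0
  have hz : NoZeroSMulDivisors (𝓞 K) (𝓞 L) := by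
    refine ⟨fun {c x} h => ?_⟩
    rw [Algebra.smul_def, mul_eq_zero] at h
    rcases h with h | h
    · left
      exact FaithfulSMul.algebraMap_injective (𝓞 K) (𝓞 L) (by rw [h, map_zero])
    · exact Or.inr h
  have h1 := Ideal.ramificationIdx_le_finrank (𝓞 L) K L (p := w.asIdeal.under (𝓞 K)) w.asIdeal
  have h3 : (w.asIdeal.under (𝓞 K)).ramificationIdx' w.asIdeal = w.asIdeal.ramificationIdx (𝓞 K) :=
    Ideal.ramificationIdx'_eq_ramificationIdx _ w.asIdeal hq0
  have h4 : (w.asIdeal.under (𝓞 K)).ramificationIdx' w.asIdeal ≠ 0 :=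
    Ideal.IsDedekindDomain.ramificationIdx'_ne_zero_of_liesOver w.asIdeal hq0
  rw [h3, h2] at h1
  rw [h3] at h4
  omega

end ram

section tower

variable {k K M L : Type} [Field k] [NumberField k] [Field K] [NumberField K] [Field M]
  [NumberField M] [Field L] [NumberField L] [Algebra k K] [Algebra k M] [Algebra k L]
  [Algebra K L] [Algebra M L] [IsScalarTower k K L] [IsScalarTower k M L]

theorem ram_tower (w : HeightOneSpectrum (𝓞 L)) :
    w.asIdeal.ramificationIdx (𝓞 k) = (w.asIdeal.under (𝓞 M)).ramificationIdx (𝓞 k) *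
      w.asIdeal.ramificationIdx (𝓞 M) :=
  Ideal.ramificationIdx_tower (w.asIdeal.under (𝓞 M)) w.asIdeal

/-- the ramification of `L / K` at `w` is prime to `3` or the prime of `M` below is ramified. -/
theorem ram_or (hM : finrank M L = 2) (w : HeightOneSpectrum (𝓞 L))
    (h3 : 3 ∣ w.asIdeal.ramificationIdx (𝓞 K)) (hp : (w.asIdeal.under (𝓞 M)).IsPrime) :
    ¬ Algebra.IsUnramifiedAt (𝓞 k) (w.asIdeal.under (𝓞 M)) := by
  intro hu
  have h1 := ram_tower (k := k) (M := K) w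
  have h2 := ram_tower (k := k) (M := M) w
  have h4 : (w.asIdeal.under (𝓞 M)).ramificationIdx (𝓞 k) = 1 :=
    Ideal.ramificationIdx_eq_one _ (𝓞 k)
  rw [h4, one_mul] at h2
  apply ram_le hM w
  rw [← h2, h1]
  exact Dvd.dvd.mul_left h3 _

end tower

/-! ### Quadratic extensions -/

section quad

variable {K L : Type} [Field K] [Field L] [Algebra K L] [FiniteDimensional K L] [CharZero K]

theorem quad_galois (h2 : finrank K L = 2) : IsGalois K L := by
  have h1 : Algebra.IsQuadraticExtension K L := ⟨h2⟩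
  infer_instance

theorem quad_norm (h2 : finrank K L = 2) (τ : L ≃ₐ[K] L) (hτ : τ ≠ 1) (z : L) :
    algebraMap K L (Algebra.norm K z) = z * τ z := by
  classical
  have hg := quad_galois h2
  rw [Algebra.norm_eq_prod_automorphisms]
  have hc : Fintype.card (L ≃ₐ[K] L) = 2 := by
    rw [← Nat.card_eq_fintype_card, IsGalois.card_aut_eq_finrank, h2]
  have hu : (Finset.univ : Finset (L ≃ₐ[K] L)) = {1, τ} := by
    symm
    apply Finset.eq_univ_of_card
    rw [Finset.card_pair hτ.symm, hc]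
  rw [hu, Finset.prod_pair hτ.symm]
  rfl

theorem quad_exists (h2 : finrank K L = 2) : ∃ τ : L ≃ₐ[K] L, τ ≠ 1 := by
  have hg := quad_galois h2
  have hc : Fintype.card (L ≃ₐ[K] L) = 2 := by
    rw [← Nat.card_eq_fintype_card, IsGalois.card_aut_eq_finrank, h2]
  have h1 : 1 < Fintype.card (L ≃ₐ[K] L) := by omega
  exact Fintype.exists_ne_of_one_lt_card h1 1

/-- elements fixed by the nontrivial automorphism lie below. -/
theorem quad_fixed (h2 : finrank K L = 2) (τ : L ≃ₐ[K] L) (hτ : τ ≠ 1) (z : L) (h : τ z = z) :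
    ∃ x : K, algebraMap K L x = z := by
  classical
  have hg := quad_galois h2
  have hc : Fintype.card (L ≃ₐ[K] L) = 2 := by
    rw [← Nat.card_eq_fintype_card, IsGalois.card_aut_eq_finrank, h2]
  have hu : (Finset.univ : Finset (L ≃ₐ[K] L)) = {1, τ} := by
    symm
    apply Finset.eq_univ_of_card
    rw [Finset.card_pair hτ.symm, hc]
  have hfix : ∀ σ : L ≃ₐ[K] L, σ z = z := by
    intro σ
    have hσ : σ ∈ (Finset.univ : Finset (L ≃ₐ[K] L)) := Finset.mem_univ σ
    rw [hu, Finset.mem_insert, Finset.mem_singleton] at hσ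
    rcases hσ with rfl | rfl
    · rfl
    · exact h
  have hbot := (IsGalois.mem_bot_iff_fixed (F := K) (E := L) _).mpr hfix
  exact IntermediateField.mem_bot.mp hbot

theorem quad_sq (h2 : finrank K L = 2) (τ : L ≃ₐ[K] L) : τ ^ 2 = 1 := by
  have hg := quad_galois h2
  have hc : Nat.card (L ≃ₐ[K] L) = 2 := by
    rw [IsGalois.card_aut_eq_finrank, h2]
  rw [← hc]
  exact pow_card_eq_one'

end quad

end Pool.Agent.LeoK.H79
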