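import Mathlib
import Pool.Agent.LeoK.StrStmts
import Pool.Agent.Helper79_LeoK.TwiA
import Pool.Agent.Helper79_LeoK.TwiB

/-!
# Squad leok, module TWI: the relative vanishing goes up along Galois extensions of 3-power degree
-/

set_option autoImplicit false

open NumberField IsDedekindDomain WithZero Module
open Pool.Agent.Helper85_Leo Pool.Agent.Leo3

namespace Pool.Agent.LeoK.H79

/-! ### The compositum -/

section comp

variable {k K M L : Type} [Field k] [Field K] [Field M] [Field L] [Algebra k K] [Algebra k M]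
  [Algebra k L] [Algebra K L] [Algebra M L] [IsScalarTower k K L] [IsScalarTower k M L]

theorem comp_galois [CharZero k] [FiniteDimensional k K] [FiniteDimensional k M]
    [FiniteDimensional k L] [IsGalois k M] (j : ℕ)
    (h2 : finrank k K = 2) (h3 : finrank k M = 3 ^ j) (hL : finrank k L = 3 ^ j * 2) :
    IsGalois k L := by
  have hK : IsGalois k K := quad_galois h2
  let f1 : K →ₐ[k] L := IsScalarTower.toAlgHom k K L
  let f2 : M →ₐ[k] L := IsScalarTower.toAlgHom k M L
  let e1 : K ≃ₐ[k] f1.fieldRange := AlgEquiv.ofInjectiveField f1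
  let e2 : M ≃ₐ[k] f2.fieldRange := AlgEquiv.ofInjectiveField f2
  have g1 : IsGalois k f1.fieldRange := IsGalois.of_algEquiv e1
  have g2 : IsGalois k f2.fieldRange := IsGalois.of_algEquiv e2
  have r1 : finrank k f1.fieldRange = 2 := by rw [← e1.toLinearEquiv.finrank_eq, h2]
  have r2 : finrank k f2.fieldRange = 3 ^ j := by rw [← e2.toLinearEquiv.finrank_eq, h3]
  have d1 : 2 ∣ finrank k ↥(f1.fieldRange ⊔ f2.fieldRange) := by
    rw [← r1]
    exact IntermediateField.finrank_dvd_of_le_right le_sup_left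
  have d2 : 3 ^ j ∣ finrank k ↥(f1.fieldRange ⊔ f2.fieldRange) := by
    rw [← r2]
    exact IntermediateField.finrank_dvd_of_le_right le_sup_right
  have hcop : Nat.Coprime (3 ^ j) 2 := Nat.Coprime.pow_left j (by norm_num)
  have d3 : 3 ^ j * 2 ∣ finrank k ↥(f1.fieldRange ⊔ f2.fieldRange) := hcop.mul_dvd_of_dvd_of_dvd d2 d1
  have hpos : 0 < finrank k ↥(f1.fieldRange ⊔ f2.fieldRange) := finrank_pos
  have htop : f1.fieldRange ⊔ f2.fieldRange = ⊤ := by
    apply IntermediateField.eq_of_le_of_finrank_le le_top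
    rw [IntermediateField.finrank_top', hL]
    exact Nat.le_of_dvd hpos d3
  have g3 : IsGalois k ↥(f1.fieldRange ⊔ f2.fieldRange) := inferInstance
  rw [htop] at g3
  exact isGalois_iff_isGalois_top.1 g3

/-- an automorphism of `L` fixing `K` and `M` pointwise is trivial. -/
theorem fix_both [FiniteDimensional K L] [FiniteDimensional M L] [IsGalois K L] [IsGalois M L]
    (j : ℕ) (hKL : finrank K L = 3 ^ j) (hML : finrank M L = 2) (g : L ≃+* L)
    (hK : ∀ x : K, g (algebraMap K L x) = algebraMap K L x)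
    (hM : ∀ x : M, g (algebraMap M L x) = algebraMap M L x) (x : L) : g x = x := by
  let gK : L ≃ₐ[K] L := AlgEquiv.ofRingEquiv (f := g) hK
  let gM : L ≃ₐ[M] L := AlgEquiv.ofRingEquiv (f := g) hM
  have h1 : gK ^ (3 ^ j) = 1 := by
    have hc : Nat.card (L ≃ₐ[K] L) = 3 ^ j := by rw [IsGalois.card_aut_eq_finrank, hKL]
    rw [← hc]
    exact pow_card_eq_one'
  have h2 : gM ^ 2 = 1 := by
    have hc : Nat.card (L ≃ₐ[M] L) = 2 := by rw [IsGalois.card_aut_eq_finrank, hML]
    rw [← hc]
    exact pow_card_eq_one'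
  have h3 : ∀ y : L, g (g y) = y := by
    intro y
    have h := congrArg (fun f : L ≃ₐ[M] L => f y) h2
    rw [pow_two] at h
    exact h
  have h4 : gK ^ 2 = 1 := by
    apply AlgEquiv.ext
    intro y
    rw [pow_two]
    exact h3 y
  obtain ⟨m, hm⟩ : Odd (3 ^ j) := Odd.pow (by decide)
  rw [hm, pow_succ, pow_mul, h4, one_pow, one_mul] at h1
  exact congrArg (fun f : L ≃ₐ[K] L => f x) h1

end comp

/-- TWI. -/
theorem twi : TwiStmt := by
  intro k K M L _ _ _ _ _ _ _ _ _ _ _ _ _ _ _ _ j h2 h3 hML hT hK hW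
  have fkK : FiniteDimensional k K := Module.Finite.of_restrictScalars_finite ℚ k K
  have fkM : FiniteDimensional k M := Module.Finite.of_restrictScalars_finite ℚ k M
  have fkL : FiniteDimensional k L := Module.Finite.of_restrictScalars_finite ℚ k L
  have fKL : FiniteDimensional K L := Module.Finite.of_restrictScalars_finite ℚ K L
  have fML : FiniteDimensional M L := Module.Finite.of_restrictScalars_finite ℚ M L
  have rkL : finrank k L = 3 ^ j * 2 := by
    rw [← finrank_mul_finrank k M L, h3, hML]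
  have rKL : finrank K L = 3 ^ j := by
    have h := finrank_mul_finrank k K L
    rw [rkL, h2, mul_comm] at h
    exact Nat.eq_of_mul_eq_mul_right (by norm_num) h
  have gkL : IsGalois k L := comp_galois (K := K) (M := M) j h2 h3 rkL
  have gKL : IsGalois K L := IsGalois.tower_top_of_isGalois k K L
  have gML : IsGalois M L := IsGalois.tower_top_of_isGalois k M L
  have gkK : IsGalois k K := quad_galois h2
  have hL : NoMu L := noMu_up rKL hK
  refine ⟨hL, ?_⟩
  have hmu : ∀ x : L, x ^ 3 = 1 → x = 1 := fun x hx => H83.eq_one_of_cube hL hx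
  obtain ⟨τ, hτ⟩ := quad_exists hML
  have hττ : ∀ x : L, τ (τ x) = x := by
    intro x
    have h := congrArg (fun f : L ≃ₐ[M] L => f x) (quad_sq hML τ)
    rw [pow_two] at h
    exact h
  -- restriction of `τ` to `K`
  let τ₀ : K ≃ₐ[k] K := (τ.restrictScalars k).restrictNormal K
  have hτ₀ : ∀ x : K, algebraMap K L (τ₀ x) = τ (algebraMap K L x) := by
    intro x
    exact AlgEquiv.restrictNormal_commutes (τ.restrictScalars k) K x
  have hτM : ∀ x : M, τ (algebraMap M L x) = algebraMap M L x := fun x => τ.commutes x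
  have hτ₀1 : τ₀ ≠ 1 := by
    intro h
    apply hτ
    apply AlgEquiv.ext
    intro x
    refine fix_both (K := K) (M := M) j rKL hML (τ : L ≃+* L) ?_ hτM x
    intro y
    have h1 := hτ₀ y
    rw [h] at h1
    exact h1.symm
  -- commutation
  have hcomm : ∀ (σ : L ≃ₐ[K] L) (x : L), τ (σ x) = σ (τ x) := by
    intro σ x
    let σ₀ : M ≃ₐ[k] M := (σ.restrictScalars k).restrictNormal M
    have hσ₀ : ∀ x : M, algebraMap M L (σ₀ x) = σ (algebraMap M L x) := by
      intro x
      exact AlgEquiv.restrictNormal_commutes (σ.restrictScalars k) M x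
    let g : L ≃+* L := (((σ : L ≃+* L).trans (τ : L ≃+* L)).trans (σ.symm : L ≃+* L)).trans
      (τ.symm : L ≃+* L)
    have hg : ∀ y : L, g y = τ.symm (σ.symm (τ (σ y))) := fun y => rfl
    have h1 : g x = x := by
      refine fix_both (K := K) (M := M) j rKL hML g ?_ ?_ x
      · intro y
        rw [hg, σ.commutes, ← hτ₀, AlgEquiv.commutes, hτ₀, AlgEquiv.symm_apply_apply]
      · intro y
        rw [hg, ← hσ₀, hτM, hσ₀, AlgEquiv.symm_apply_apply, AlgEquiv.commutes]
    rw [hg, AlgEquiv.symm_apply_eq, AlgEquiv.symm_apply_eq] at h1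
    exact h1
  -- the group of elements
  let A : L → Prop := fun z => (∃ c : L, τ c = c ∧ z * τ z = c ^ 3) ∧ ValCube3 z ∧ LocCube z
  have hAmul : ∀ x y, A x → A y → A (x * y) := by
    rintro x y ⟨⟨c, hc, hc3⟩, hv, hl⟩ ⟨⟨d, hd, hd3⟩, hv', hl'⟩
    refine ⟨⟨c * d, by rw [map_mul, hc, hd], ?_⟩, valCube3_mul hv hv', H83.locCube_mul hl hl'⟩
    rw [map_mul, mul_pow, ← hc3, ← hd3]
    ring
  have hAinv : ∀ x, A x → A x⁻¹ := by
    rintro x ⟨⟨c, hc, hc3⟩, hv, hl⟩
    refine ⟨⟨c⁻¹, by rw [map_inv₀, hc], ?_⟩, valCube3_inv hv, H83.locCube_inv hl⟩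
    rw [map_inv₀, inv_pow, ← hc3, mul_inv]
  have hAcub : ∀ x, x ≠ 0 → A (x ^ 3) := by
    intro x _
    refine ⟨⟨x * τ x, by rw [map_mul, hττ, mul_comm], by rw [map_pow, mul_pow]⟩,
      valCube3_cube x, ?_⟩
    intro φ
    exact ⟨φ x, H83.inLoc_self φ x, by rw [map_pow]⟩
  have hAσ : ∀ (σ : L ≃ₐ[K] L) (x : L), A x → A (σ x) := by
    rintro σ x ⟨⟨c, hc, hc3⟩, hv, hl⟩
    refine ⟨⟨σ c, by rw [hcomm, hc], by rw [hcomm, ← map_mul, hc3, map_pow]⟩,
      valCube3_map hv (σ : L ≃+* L), H83.locCube_map hl (σ : L ≃+* L)⟩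
  have hG : IsPGroup 3 (L ≃ₐ[K] L) := IsPGroup.of_card (n := j)
    (by rw [IsGalois.card_aut_eq_finrank, rKL])
  intro z hz0 hzN hzv hzl
  by_contra hnc
  push Not at hnc
  have hzA : A z := by
    obtain ⟨c, hc⟩ := hzN
    refine ⟨⟨algebraMap M L c, hτM c, ?_⟩, hzv, hzl⟩
    rw [← quad_norm hML τ hτ z, hc, map_pow]
  obtain ⟨e, he0, heA, hec, hef⟩ := exists_class hG A hAmul hAinv hAcub hAσ z hz0 hzA hnc
  obtain ⟨z₀, y, hz₀, hy, hzy⟩ := descend (K := K) hmu e he0 hef
  have hA₀ : A (algebraMap K L z₀) := by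
    rw [hzy]
    exact hAmul _ _ heA (hAcub y hy)
  obtain ⟨⟨c, hcτ, hc⟩, hv₀, hl₀⟩ := hA₀
  -- the norm of `z₀`
  have hN : ∃ d : k, Algebra.norm k z₀ = d ^ 3 := by
    obtain ⟨cM, hcM⟩ := quad_fixed hML τ hτ c hcτ
    have h1 : algebraMap k M (Algebra.norm k z₀) = cM ^ 3 := by
      apply (algebraMap M L).injective
      rw [← IsScalarTower.algebraMap_apply k M L, map_pow, hcM, ← hc,
        IsScalarTower.algebraMap_apply k K L, quad_norm h2 τ₀ hτ₀1, map_mul, hτ₀]
    have hn0 : Algebra.norm k z₀ ≠ 0 := by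
      rw [Ne, Algebra.norm_eq_zero_iff]
      exact hz₀
    have hc0 : cM ≠ 0 := by
      rintro rfl
      apply hn0
      apply (algebraMap k M).injective
      rw [h1, map_zero]
      norm_num
    have hfix : ∀ s : M ≃ₐ[k] M, s cM = cM := by
      intro s
      have h3 : (s cM / cM) ^ 3 = 1 := by
        rw [div_pow, ← map_pow, ← h1, s.commutes]
        exact div_self ((map_ne_zero (algebraMap k M)).2 hn0)
      have h4 : algebraMap M L (s cM / cM) = 1 := by
        apply hmu
        rw [← map_pow, h3, map_one]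
      have h5 : s cM / cM = 1 := (algebraMap M L).injective (by rw [h4, map_one])
      rwa [div_eq_one_iff_eq hc0] at h5
    obtain ⟨d, hd⟩ := IntermediateField.mem_bot.mp
      ((IsGalois.mem_bot_iff_fixed (F := k) (E := M) _).mpr hfix)
    refine ⟨d, ?_⟩
    apply (algebraMap k M).injective
    rw [h1, map_pow, hd]
  -- local condition
  have hloc : LocCube z₀ := by
    intro φ
    obtain ⟨ψ, hψ⟩ := H83.exists_ext K L φ
    obtain ⟨t, ht, ht3⟩ := hl₀ ψ
    have h1 : t ^ 3 = φ z₀ := by rw [ht3, ← hψ]; rfl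
    refine ⟨t, ?_, h1⟩
    rw [← hψ]
    apply inLoc_desc hL ψ t ht
    rw [h1, hψ]
    exact H83.inLoc_self φ z₀
  -- valuations
  have hval : ValCube3 z₀ := by
    intro q hq
    obtain ⟨w, hw, hw3⟩ := exists_above (L := L) q hq
    have hp := val_pow q w hw z₀
    obtain ⟨x, hx⟩ := hv₀ w hw3
    rw [hx] at hp
    by_cases h3e : 3 ∣ w.asIdeal.ramificationIdx (𝓞 K)
    · have hwp := w.isPrime
      have hPp : (w.asIdeal.under (𝓞 M)).IsPrime := inferInstance
      have hP0 : w.asIdeal.under (𝓞 M) ≠ ⊥ := by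
        intro h
        exact w.ne_bot (Ideal.eq_bot_of_comap_eq_bot h)
      have hP3 : (3 : 𝓞 M) ∉ w.asIdeal.under (𝓞 M) := by
        rw [Ideal.mem_under, map_ofNat]
        exact hw3
      have hnu := ram_or (k := k) (K := K) hML w h3e hPp
      obtain ⟨q', hq', hv'⟩ := H60.valuation_conj (τ₀ : K ≃+* K) q
      have hqp := q.isPrime
      have hqp' := q'.isPrime
      have hu1 : q.asIdeal.under (𝓞 k) = (w.asIdeal.under (𝓞 M)).under (𝓞 k) := by
        rw [hw.over, Ideal.under_under, Ideal.under_under]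
      have hu2 : q'.asIdeal.under (𝓞 k) = (w.asIdeal.under (𝓞 M)).under (𝓞 k) := by
        rw [← hu1, hq']
        ext a
        rw [Ideal.mem_under, Ideal.mem_under, Ideal.mem_comap]
        have h5 : (RingOfIntegers.mapRingEquiv (τ₀ : K ≃+* K)) (algebraMap (𝓞 k) (𝓞 K) a) =
            algebraMap (𝓞 k) (𝓞 K) a := by
          apply RingOfIntegers.ext
          exact τ₀.commutes (a : k)
        rw [h5]
      have hqq : q.asIdeal = q'.asIdeal := hT _ hP0 hP3 hnu q.asIdeal q'.asIdeal hu1 hu2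
      have hqq' : q' = q := HeightOneSpectrum.ext hqq.symm
      have h6 : q.valuation K (τ₀ z₀) = q.valuation K z₀ := by
        have := hv' z₀
        rw [hqq'] at this
        exact this
      obtain ⟨d, hd⟩ := hN
      have h7 : q.valuation K z₀ ^ 2 = (q.valuation K (algebraMap k K d)) ^ 3 := by
        have h8 : (algebraMap k K d) ^ 3 = z₀ * τ₀ z₀ := by
          rw [← map_pow, ← hd, quad_norm h2 τ₀ hτ₀1]
        have h9 := congrArg (q.valuation K) h8
        rw [map_pow, map_mul, h6, ← pow_two] at h9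
        exact h9.symm
      exact cube_of_pow (by norm_num) h7
    · exact cube_of_pow h3e hp
  obtain ⟨t, ht⟩ := hW z₀ hz₀ hN hval hloc
  apply hec (algebraMap K L t / y)
  rw [div_pow, ← map_pow, ht, hzy]
  field_simp

end Pool.Agent.LeoK.H79
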