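import Mathlib
import Pool.Agent.LeoK.StrStmts
import Pool.Agent.Helper83_Leo3.Gup

/-!
# Squad leok, module STR: main statement of the algebraic part
-/

set_option autoImplicit false

open NumberField IsDedekindDomain WithZero Module Polynomial
open Pool.Agent.Helper85_Leo Pool.Agent.Leo3

namespace Pool.Agent.LeoK.H79

/-- The field `k(√c)` for a nonsquare `c`. -/
theorem exists_quad (k : Type) [Field k] [NumberField k] (c : k) (hc : ∀ x : k, x ^ 2 ≠ c) :
    ∃ (F : Type) (_ : Field F) (_ : NumberField F) (_ : Algebra k F) (s : F),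
      finrank k F = 2 ∧ s ^ 2 = algebraMap k F c := by
  have hirr : Irreducible (X ^ 2 - C c : k[X]) := X_pow_sub_C_irreducible_of_prime Nat.prime_two hc
  have hf : Fact (Irreducible (X ^ 2 - C c : k[X])) := ⟨hirr⟩
  have hne : (X ^ 2 - C c : k[X]) ≠ 0 := hirr.ne_zero
  let F := AdjoinRoot (X ^ 2 - C c : k[X])
  have hfin : Module.Finite k F := (AdjoinRoot.powerBasis hne).finite
  have hchar : CharZero F := charZero_of_injective_algebraMap (algebraMap k F).injective
  have hrank : finrank k F = 2 := by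
    rw [(AdjoinRoot.powerBasis hne).finrank, AdjoinRoot.powerBasis_dim, natDegree_X_pow_sub_C]
  have hQ : Module.Finite ℚ F := Module.Finite.trans k F
  have hNF : NumberField F := ⟨⟩
  refine ⟨F, inferInstance, hNF, inferInstance, AdjoinRoot.root (X ^ 2 - C c : k[X]), hrank, ?_⟩
  have h := AdjoinRoot.eval₂_root (X ^ 2 - C c : k[X])
  rw [eval₂_sub, eval₂_pow, eval₂_X, eval₂_C, sub_eq_zero] at h
  exact h

/-- STR. -/
theorem str (hNMF : NmfStmt) (hREDM : RedmStmt) (hREF : RefStmt) (hEIS : EisStmt) : StrStmt := by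
  intro k K _ _ _ _ _ m r hreal hmu hcl h2 hr hA
  have hK : NoMu K := hNMF k K m r h2 hr hA.nsq hmu hA.three
  refine ⟨hK, ?_⟩
  intro hW
  have hB : ∃ t₀ s₀ : k, Bad k m t₀ s₀ := by
    by_contra hno
    push Not at hno
    exact hW (hREDM k K m r h2 hr hA.nsq hK hno)
  have hns : ∀ x : k, x ^ 2 ≠ -(m : k) := by
    intro x hx
    obtain ⟨φ⟩ := H83.exists_emb k
    apply hA.three φ (φ x) (H83.inLoc_self φ x)
    rw [← map_pow, hx, map_neg]
  obtain ⟨F, _, _, _, s, hF, hs⟩ := exists_quad k (-(m : k)) hns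
  rw [map_neg] at hs
  exact hEIS k F m s hreal hF hs hA hcl (hREF k F m s hreal hF hs hA hB)

end Pool.Agent.LeoK.H79
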